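import Pool.Agent.Lib.MP_12e153_co.Mg.G002

/-!
# The extraction lemma (GL)
-/

set_option autoImplicit false

open Finset
open scoped Pointwise

namespace Pool.Agent.Lib.MP_12e153_co

open Pool.Agent.Kneser

variable {G : Type*} [AddCommGroup G] [Fintype G] [DecidableEq G]

open Classical in
theorem card_le_qim (K : AddSubgroup G) (Δ : Finset G) (h0 : (0 : G) ∈ Δ) :
    Δ.card + (fs K).card ≤ (Δ.filter (· ∈ K)).card + (fs K).card * (qim K Δ).card := by
  have h1 := Finset.card_filter_add_card_filter_not (s := Δ) (· ∈ K)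
  have h2 : (Δ.filter (¬ · ∈ K)).card ≤ (fs K).card * ((qim K Δ).erase 0).card := by
    apply Finset.card_le_mul_card_image_of_maps_to (f := fun x : G => (x : G ⧸ K))
    · intro x hx
      rw [mem_filter] at hx
      rw [mem_erase]
      refine ⟨?_, mem_qim.2 ⟨x, hx.1, rfl⟩⟩
      intro h
      exact hx.2 ((QuotientAddGroup.eq_zero_iff x).1 h)
    · intro y _
      by_cases hne : ((Δ.filter (¬ · ∈ K)).filter (fun x : G => (x : G ⧸ K) = y)).Nonempty
      · obtain ⟨z, hz⟩ := hne
        simp only [mem_filter] at hz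
        apply Finset.card_le_card_of_injOn (fun x => -z + x)
        · intro x hx
          simp only [coe_filter, mem_filter, Set.mem_ofPred_eq] at hx
          simp only [mem_coe, mem_fs]
          rw [← QuotientAddGroup.eq, hz.2, hx.2]
        · intro x _ x' _ h
          simpa using h
      · rw [Finset.not_nonempty_iff_eq_empty] at hne
        rw [hne]; simp
  have h3 : (0 : G ⧸ K) ∈ qim K Δ := mem_qim.2 ⟨0, h0, rfl⟩
  have h4 := Finset.card_erase_add_one h3
  rw [← h4, mul_add, mul_one]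
  omega

theorem qim_card_le_relIndex (K H : AddSubgroup G) (hKH : K ≤ H) (T : Finset G)
    (hT : T ⊆ fs H) : (qim K T).card ≤ K.relIndex H := by
  have h1 := card_add_fs K T
  have h2 := relIndex_mul_fs K H hKH
  have h3 : T + fs K ⊆ fs H := by
    intro x hx
    rw [mem_add] at hx
    obtain ⟨t, ht, k, hk, rfl⟩ := hx
    rw [mem_fs] at hk ⊢
    exact H.add_mem (by simpa using hT ht) (hKH hk)
  have h4 := Finset.card_le_card h3
  rw [h1, ← h2] at h4
  exact Nat.le_of_mul_le_mul_right h4 (fs_card_pos K)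

theorem stab_le_of_subset (T : Finset G) (H : AddSubgroup G) (hT : T ⊆ fs H) (h0 : (0 : G) ∈ T) :
    stab T ≤ H := by
  intro g hg
  have := (hg 0).2 h0
  have := hT this
  simpa using this

theorem sum_subset_fs {ι : Type*} [DecidableEq ι] (s : Finset ι) (Δ : ι → Finset G)
    (H : AddSubgroup G) (h : ∀ i ∈ s, ∀ x ∈ Δ i, x ∈ H) : ∑ i ∈ s, Δ i ⊆ fs H := by
  intro y hy
  rw [mem_sum_iff] at hy
  obtain ⟨f, hf, rfl⟩ := hy
  rw [mem_fs]
  exact H.sum_mem fun i hi => h i hi _ (hf i hi)

theorem zero_mem_sum {ι : Type*} [DecidableEq ι] (s : Finset ι) (Δ : ι → Finset G)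
    (h0 : ∀ i ∈ s, (0 : G) ∈ Δ i) : (0 : G) ∈ ∑ i ∈ s, Δ i := by
  rw [mem_sum_iff]
  exact ⟨fun _ => 0, h0, by simp⟩

open Classical in
/-- **GL.** Sets `Δ i ∋ 0` in a nonzero subgroup `H` with `∑ (|Δ i| - 1) ≥ |H| - 1`: there is a
nonzero subgroup `H' ≤ H` and sets `A i ⊆ Δ i`, `0 ∈ A i`, with `∑ A i = H'` and
`∑ (|A i| - 1) ≤ |H'| - 1`. -/
theorem gadgetExtract {ι : Type*} [DecidableEq ι] (s : Finset ι) (n : ℕ) :
    ∀ (H : AddSubgroup G) (Δ : ι → Finset G), (fs H).card = n → 2 ≤ (fs H).card →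
    (∀ i ∈ s, (0 : G) ∈ Δ i) → (∀ i ∈ s, ∀ x ∈ Δ i, x ∈ H) →
    (fs H).card ≤ ∑ i ∈ s, ((Δ i).card - 1) + 1 →
    ∃ (H' : AddSubgroup G) (A : ι → Finset G), H' ≤ H ∧ 2 ≤ (fs H').card ∧
      (∀ i ∈ s, A i ⊆ Δ i) ∧ (∀ i ∈ s, (0 : G) ∈ A i) ∧ ∑ i ∈ s, A i = fs H' ∧
      ∑ i ∈ s, ((A i).card - 1) + 1 ≤ (fs H').card := by
  induction n using Nat.strong_induction_on with
  | _ n ih =>
  intro H Δ hn h2 h0 hΔ hsum
  set T := ∑ i ∈ s, Δ i with hT
  have hTH : T ⊆ fs H := sum_subset_fs s Δ H hΔ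
  have h0T : (0 : G) ∈ T := zero_mem_sum s Δ h0
  have hKH : stab T ≤ H := stab_le_of_subset T H hTH h0T
  by_cases heq : stab T = H
  · have hTeq : T = fs H := by
      apply Finset.Subset.antisymm hTH
      intro y hy
      rw [mem_fs, ← heq] at hy
      have := (hy 0).2 h0T
      simpa using this
    obtain ⟨A, hA1, hA2, hA3, hA4⟩ := greedy s Δ h0
    refine ⟨H, A, le_rfl, h2, hA1, hA2, ?_, ?_⟩
    · rw [hA3, ← hT, hTeq]
    · rw [← hT, hTeq] at hA4; exact hA4
  · have hlt : stab T < H := lt_of_le_of_ne hKH heq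
    set K := stab T with hK
    have hk := kneser_quot s Δ (fun i hi => ⟨0, h0 i hi⟩)
    rw [← hT, ← hK] at hk
    have h6 : (qim K T).card * (fs K).card = T.card := by
      rw [← card_add_fs, add_fs_stab _ _ le_rfl]
    have h7 : T.card < (fs H).card := by
      apply Finset.card_lt_card
      refine ⟨hTH, ?_⟩
      intro hsup
      have hTH' : T = fs H := Finset.Subset.antisymm hTH hsup
      apply heq
      apply le_antisymm hKH
      rw [hK, hTH']
      intro g hg x
      simp only [mem_fs]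
      exact ⟨fun h => (AddSubgroup.add_mem_cancel_left H hg).1 h,
        fun h => AddSubgroup.add_mem H hg h⟩
    have hrel := relIndex_mul_fs K H hKH
    have h8 : (qim K T).card < K.relIndex H := by
      rw [← hrel, ← h6] at h7
      exact Nat.lt_of_mul_lt_mul_right h7
    have hpos := fs_card_pos K
    -- pointwise inequality
    have h9 : ∑ i ∈ s, ((Δ i).card - 1) ≤ ∑ i ∈ s, (((Δ i).filter (· ∈ K)).card - 1) +
        (fs K).card * ∑ i ∈ s, ((qim K (Δ i)).card - 1) := by
      rw [Finset.mul_sum, ← Finset.sum_add_distrib]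
      apply Finset.sum_le_sum
      intro i hi
      have h10 := card_le_qim K (Δ i) (h0 i hi)
      have h11 : 1 ≤ ((Δ i).filter (· ∈ K)).card :=
        Finset.card_pos.2 ⟨0, mem_filter.2 ⟨h0 i hi, K.zero_mem⟩⟩
      have h12 : 1 ≤ (qim K (Δ i)).card := Finset.card_pos.2 ⟨_, mem_qim.2 ⟨0, h0 i hi, rfl⟩⟩
      obtain ⟨q, hq⟩ := Nat.exists_eq_add_of_le h12
      rw [hq] at h10 ⊢
      rw [mul_add, mul_one] at h10
      have : 1 + q - 1 = q := by omega
      rw [this]
      omega
    have h13 : (fs K).card * ∑ i ∈ s, ((qim K (Δ i)).card - 1) ≤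
        (fs K).card * (K.relIndex H - 2) := by
      apply Nat.mul_le_mul_left
      omega
    have h14 : 2 ≤ K.relIndex H := by omega
    have h15 : (fs K).card * (K.relIndex H - 2) + 2 * (fs K).card = (fs H).card := by
      obtain ⟨r, hr⟩ := Nat.exists_eq_add_of_le h14
      rw [← hrel, hr]
      have : 2 + r - 2 = r := by omega
      rw [this]; ring
    have h16 : 2 * (fs K).card ≤ ∑ i ∈ s, (((Δ i).filter (· ∈ K)).card - 1) + 1 := by omega
    have hK2 : 2 ≤ (fs K).card := by
      by_contra hcon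
      have hone : (fs K).card = 1 := by omega
      have hall : ∀ i ∈ s, ((Δ i).filter (· ∈ K)).card - 1 = 0 := by
        intro i _
        have : ((Δ i).filter (· ∈ K)).card ≤ (fs K).card := by
          apply Finset.card_le_card
          intro x hx
          rw [mem_filter] at hx
          rw [mem_fs]; exact hx.2
        omega
      rw [Finset.sum_eq_zero hall] at h16
      omega
    have hcard : (fs K).card < (fs H).card := by
      rw [← hrel]
      calc (fs K).card = 1 * (fs K).card := (one_mul _).symm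
        _ < K.relIndex H * (fs K).card := Nat.mul_lt_mul_of_pos_right (by omega) hpos
    obtain ⟨H', A, hA0, hA1, hA2, hA3, hA4, hA5⟩ := ih (fs K).card (by omega) K
      (fun i => (Δ i).filter (· ∈ K)) rfl hK2
      (fun i hi => mem_filter.2 ⟨h0 i hi, K.zero_mem⟩)
      (fun i hi x hx => (mem_filter.1 hx).2) (by omega)
    exact ⟨H', A, hA0.trans hKH, hA1, fun i hi => (hA2 i hi).trans (filter_subset _ _),
      hA3, hA4, hA5⟩

end Pool.Agent.Lib.MP_12e153_co
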