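import Pool.Agent.Lib.MP_12e153_co.Mg.G003
import Pool.Agent.Lib.MP_12e153_co.Tree

/-!
# Assembly: the statement for all `m` from no based gadgets
-/

set_option autoImplicit false
set_option linter.unusedSectionVars false

open Finset

namespace Pool.Agent.Lib.MP_12e153_co

/-- No based gadgets for the modulus `m`. -/
def NGs (m : ℕ) [NeZero m] : Prop :=
  ∀ c : Fin (m + 1) → Fin (m + 1) → ZMod m, (∀ a b, c a b = c b a) → (∀ v, c v v = 0) →
    NZ c → ∀ q, Comp.Free c q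

theorem exists_tree_of_NG (m : ℕ) [NeZero m] (hNG : 2 ≤ m → NGs m)
    (c : Fin (m + 1) → Fin (m + 1) → ZMod m) (hc : ∀ a b, c a b = c b a) (hd : ∀ v, c v v = 0) :
    ∃ Q : Finset (Fin (m + 1)), ∃ r ∈ Q, ∃ g : Fin (m + 1) → Fin (m + 1),
      (∀ b ∈ Qᶜ, g b ∈ Q) ∧ ∑ q ∈ Q.erase r, c r q + ∑ b ∈ Qᶜ, c b (g b) = 0 := by
  by_cases hm : 2 ≤ m
  · by_contra hcon
    push Not at hcon
    have hnz : NZ c := fun Q r hr g hg => hcon Q r hr g hg
    exact no_all_free (c := c) (by simp) hc hd hnz hm (hNG hm c hc hd hnz)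
  · have h1 : m = 1 := by
      have := NeZero.ne m
      omega
    subst h1
    refine ⟨{0}, 0, by simp, fun _ => 0, by simp, ?_⟩
    exact Subsingleton.elim _ _

theorem main_of_NG (hNG : ∀ m : ℕ, 2 ≤ m → ∀ [NeZero m], NGs m) (m : ℕ) (hm : 1 ≤ m) (n : ℕ) :
    TwoCol m n ↔ ZeroSum m n := by
  have : NeZero m := ⟨by omega⟩
  rw [twoCol_iff]
  exact ⟨fun hn => zeroSum_of m n hn (exists_tree_of_NG m (fun h => hNG m h)),
    fun h => le_of_zeroSum m n h⟩

end Pool.Agent.Lib.MP_12e153_co
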