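import Pool.Agent.Lib.MP_12e153_co.Comp.Extract

/-!
# Colourings by a finite abelian group without zero-sum star trees: (Star) and (Z+)
-/

set_option autoImplicit false
set_option linter.unusedSectionVars false

open Finset
open scoped Pointwise

namespace Pool.Agent.Lib.MP_12e153_co.Comp

open Pool.Agent.Kneser Pool.Agent.Lib.MP_12e153_co

variable {V : Type*} [Fintype V] [DecidableEq V]
variable {G : Type*} [AddCommGroup G] [Fintype G] [DecidableEq G]

/-- No spanning tree made of a star on `Q` with centre `r` and of one edge from each other vertex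
to `Q` has colour sum zero. -/
def NZ (c : V → V → G) : Prop :=
  ∀ Q : Finset V, ∀ r ∈ Q, ∀ g : V → V, (∀ b ∈ Qᶜ, g b ∈ Q) →
    ∑ q ∈ Q.erase r, c r q + ∑ b ∈ Qᶜ, c b (g b) ≠ 0

/-- The colours from `b` to `Q`. -/
def S (c : V → V → G) (Q : Finset V) (b : V) : Finset G := Q.image (c b)

/-- The star sums of `Q`. -/
def B (c : V → V → G) (Q : Finset V) : Finset G :=
  Q.image fun r => ∑ q ∈ Q.erase r, c r q

/-- All sums of star trees with middle set `Q`. -/
def T (c : V → V → G) (Q : Finset V) : Finset G := B c Q + ∑ b ∈ Qᶜ, S c Q b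

variable {c : V → V → G}

theorem mem_S {Q : Finset V} {b : V} {x : G} : x ∈ S c Q b ↔ ∃ q ∈ Q, c b q = x := by
  simp [S]

theorem S_mono {Q Q' : Finset V} (h : Q ⊆ Q') (b : V) : S c Q b ⊆ S c Q' b :=
  image_subset_image h

theorem S_nonempty {Q : Finset V} (hQ : Q.Nonempty) (b : V) : (S c Q b).Nonempty := hQ.image _

/-- The basic nonvanishing statement in terms of chosen colours. -/
theorem NZ.choice (h : NZ c) {Q : Finset V} {r : V} (hr : r ∈ Q) (f : V → G)
    (hf : ∀ b ∉ Q, f b ∈ S c Q b) : ∑ q ∈ Q.erase r, c r q + ∑ b ∈ Qᶜ, f b ≠ 0 := by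
  have : ∀ b : V, ∃ q : V, b ∉ Q → q ∈ Q ∧ c b q = f b := by
    intro b
    by_cases hb : b ∈ Q
    · exact ⟨b, fun h => absurd hb h⟩
    · obtain ⟨q, hq, hqe⟩ := mem_S.1 (hf b hb)
      exact ⟨q, fun _ => ⟨hq, hqe⟩⟩
  choose g hg using this
  have h1 := h Q r hr g (fun b hb => (hg b (mem_compl.1 hb)).1)
  rwa [sum_congr rfl fun b hb => (hg b (mem_compl.1 hb)).2] at h1

theorem NZ.zero_notMem (h : NZ c) (Q : Finset V) : (0 : G) ∉ T c Q := by
  intro h0
  rw [T, mem_add] at h0
  obtain ⟨x, hx, y, hy, hxy⟩ := h0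
  rw [B, mem_image] at hx
  obtain ⟨r, hr, rfl⟩ := hx
  rw [mem_sum_iff] at hy
  obtain ⟨f, hf, rfl⟩ := hy
  exact h.choice hr f (fun b hb => hf b (mem_compl.2 hb)) hxy

theorem card_erase_add_compl (Q : Finset V) {r : V} (hr : r ∈ Q) :
    (Q.erase r).card + Qᶜ.card + 1 = Fintype.card V := by
  have h1 := Finset.card_erase_add_one hr
  have h2 := card_add_card_compl Q
  omega

/-- Adding a constant to all colours does not change anything. -/
theorem NZ.shift (h : NZ c) (hV : Fintype.card V = Fintype.card G + 1) (a : G) :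
    NZ (fun u v => c u v - a) := by
  intro Q r hr g hg h0
  apply h Q r hr g hg
  rw [sum_sub_distrib, sum_sub_distrib, sum_const, sum_const] at h0
  have h1 := card_erase_add_compl Q hr
  have h2 : (Q.erase r).card + Qᶜ.card = Fintype.card G := by omega
  have h3 : (Q.erase r).card • a + Qᶜ.card • a = 0 := by
    rw [← add_smul, h2, card_nsmul_eq_zero]
  calc ∑ q ∈ Q.erase r, c r q + ∑ b ∈ Qᶜ, c b (g b)
      = (∑ q ∈ Q.erase r, c r q - (Q.erase r).card • a +
        (∑ b ∈ Qᶜ, c b (g b) - Qᶜ.card • a)) + ((Q.erase r).card • a + Qᶜ.card • a) := by abel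
    _ = 0 := by rw [h0, h3, add_zero]

theorem S_shift (a : G) (Q : Finset V) (b : V) :
    S (fun u v => c u v - a) Q b = (S c Q b).image (fun x => x - a) := by
  rw [S, S, image_image]; rfl

theorem B_nonempty {Q : Finset V} (hQ : Q.Nonempty) : (B c Q).Nonempty := hQ.image _

/-- **Star inequality modulo the stabiliser.** -/
theorem NZ.star (h : NZ c) {Q : Finset V} (hQ : Q.Nonempty) :
    stab (T c Q) ≠ ⊤ ∧ (qim (stab (T c Q)) (B c Q)).card +
      ∑ b ∈ Qᶜ, ((qim (stab (T c Q)) (S c Q b)).card - 1) + 1 ≤ (stab (T c Q)).index := by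
  apply kneser_proper Qᶜ (S c Q) (B c Q) (B_nonempty hQ) (fun b _ => S_nonempty hQ b)
  intro hu
  apply h.zero_notMem Q
  rw [T, hu]
  exact mem_univ _

section ZPlus

variable {L : AddSubgroup G} {C D : Finset V} {A : V → Finset G}

open Classical in
/-- Root outside `C ∪ D`. -/
theorem rootX (h : NZ c) (hCD : Disjoint C D)
    (hA : ∀ d ∈ D, A d ⊆ S c C d) (hAL : fs L ⊆ ∑ d ∈ D, A d)
    (hX : ∀ b ∉ C ∪ D, ∃ x ∈ S c C b, x ∈ L)
    (M : AddSubgroup G) (hLM : L ≤ M) {r : V} (hr : r ∉ C ∪ D) (hrM : ∀ x ∈ S c C r, x ∈ M)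
    (hcov : ∀ y ∈ M, ∃ f : V → G,
      (∀ b ∈ (((C ∪ D)ᶜ.erase r).filter (fun b => ∀ x ∈ S c C b, x ∈ M)), f b ∈ S c C b) ∧
      y - ∑ b ∈ (((C ∪ D)ᶜ.erase r).filter (fun b => ∀ x ∈ S c C b, x ∈ M)), f b ∈ L) :
    False := by
  classical
  rw [mem_union, not_or] at hr
  -- choice of L-edges
  have hl : ∀ b : V, ∃ x, b ∉ C ∪ D → x ∈ S c C b ∧ x ∈ L := by
    intro b
    by_cases hb : b ∈ C ∪ D
    · exact ⟨0, fun h => absurd hb h⟩
    · obtain ⟨x, hx, hx'⟩ := hX b hb
      exact ⟨x, fun _ => ⟨hx, hx'⟩⟩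
  choose l hl using hl
  set X1 := ((C ∪ D)ᶜ.erase r).filter (fun b => ∀ x ∈ S c C b, x ∈ M) with hX1
  set X2 := ((C ∪ D)ᶜ.erase r).filter (fun b => ¬ ∀ x ∈ S c C b, x ∈ M) with hX2
  -- the root sum
  set ρ := ∑ q ∈ C, c r q with hρ
  have hρM : ρ ∈ M := M.sum_mem fun q hq => hrM _ (mem_S.2 ⟨q, hq, rfl⟩)
  set lam2 := ∑ b ∈ X2, l b with hlam2
  have hlam2L : lam2 ∈ L := L.sum_mem fun b hb => (hl b (by
    rw [hX2, mem_filter, mem_erase, mem_compl] at hb; exact hb.1.2)).2
  obtain ⟨f, hf1, hf2⟩ := hcov (-ρ) (M.neg_mem hρM)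
  -- the D part
  have hy : -ρ - ∑ b ∈ X1, f b - lam2 ∈ L := L.sub_mem hf2 hlam2L
  have hy' := hAL (mem_fs.2 hy)
  rw [mem_sum_iff] at hy'
  obtain ⟨d, hd1, hd2⟩ := hy'
  -- total
  have hrC : r ∉ C := hr.1
  refine h.choice (Q := insert r C) (r := r) (mem_insert_self _ _)
    (fun b => if b ∈ D then d b else if b ∈ X1 then f b else l b) ?_ ?_
  · intro b hb
    rw [mem_insert, not_or] at hb
    have hsub : S c C b ⊆ S c (insert r C) b := S_mono (subset_insert _ _) b
    by_cases hbD : b ∈ D
    · simp only [hbD, if_true]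
      exact hsub (hA b hbD (hd1 b hbD))
    · simp only [hbD, if_false]
      by_cases hb1 : b ∈ X1
      · simp only [hb1, if_true]
        exact hsub (hf1 b hb1)
      · simp only [hb1, if_false]
        exact hsub (hl b (by rw [mem_union, not_or]; exact ⟨hb.2, hbD⟩)).1
  · have e1 : (insert r C).erase r = C := erase_insert hrC
    have e2 : (insert r C)ᶜ = D ∪ (X1 ∪ X2) := by
      ext b
      simp only [mem_compl, mem_insert, mem_union, hX1, hX2, mem_filter, mem_erase]
      by_cases hbr : b = r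
      · subst hbr
        simp [hr.2]
      · by_cases hbC : b ∈ C
        · have : b ∉ D := fun hbD => (Finset.disjoint_left.1 hCD hbC hbD)
          simp [hbC, this]
        · by_cases hbD : b ∈ D
          · simp [hbr, hbC, hbD]
          · simp only [hbr, hbC, hbD, or_self, not_false_eq_true, ne_eq, true_and, false_or,
              and_self, true_iff]
            exact Classical.em _
    have d1 : Disjoint D (X1 ∪ X2) := by
      rw [Finset.disjoint_left]
      intro b hbD hb
      simp only [mem_union, hX1, hX2, mem_filter, mem_erase, mem_compl] at hb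
      rcases hb with hb | hb
      · exact hb.1.2 (Or.inr hbD)
      · exact hb.1.2 (Or.inr hbD)
    have d2 : Disjoint X1 X2 := by
      rw [hX1, hX2]
      exact disjoint_filter_filter_not _ _ _
    rw [e1, e2, sum_union d1, sum_union d2]
    have s1 : ∑ b ∈ D, (if b ∈ D then d b else if b ∈ X1 then f b else l b) = ∑ b ∈ D, d b :=
      sum_congr rfl fun b hb => by simp [hb]
    have s2 : ∑ b ∈ X1, (if b ∈ D then d b else if b ∈ X1 then f b else l b) =
        ∑ b ∈ X1, f b := sum_congr rfl fun b hb => by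
      have : b ∉ D := fun hD => Finset.disjoint_left.1 d1 hD (mem_union_left _ hb)
      simp [hb, this]
    have s3 : ∑ b ∈ X2, (if b ∈ D then d b else if b ∈ X1 then f b else l b) =
        ∑ b ∈ X2, l b := sum_congr rfl fun b hb => by
      have h1 : b ∉ D := fun hD => Finset.disjoint_left.1 d1 hD (mem_union_right _ hb)
      have h2 : b ∉ X1 := fun hD => Finset.disjoint_left.1 d2 hD hb
      simp [h1, h2]
    rw [s1, s2, s3, hd2, ← hρ, ← hlam2]
    abel

/-- Root in `C`. -/
theorem rootC (h : NZ c) (hC : C.Nonempty) (hCD : Disjoint C D)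
    (hA : ∀ d ∈ D, A d ⊆ S c C d) (hAL : fs L ⊆ ∑ d ∈ D, A d)
    (hcov : ∀ y : G, ∃ f : V → G, (∀ b ∈ (C ∪ D)ᶜ, f b ∈ S c C b) ∧
      y - ∑ b ∈ (C ∪ D)ᶜ, f b ∈ L) : False := by
  classical
  obtain ⟨r, hr⟩ := hC
  obtain ⟨f, hf1, hf2⟩ := hcov (-∑ q ∈ C.erase r, c r q)
  have hy' := hAL (mem_fs.2 hf2)
  rw [mem_sum_iff] at hy'
  obtain ⟨d, hd1, hd2⟩ := hy'
  refine h.choice (Q := C) hr (fun b => if b ∈ D then d b else f b) ?_ ?_
  · intro b hb
    by_cases hbD : b ∈ D
    · simp only [hbD, if_true]; exact hA b hbD (hd1 b hbD)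
    · simp only [hbD, if_false]
      exact hf1 b (by simp [hb, hbD])
  · have e2 : Cᶜ = D ∪ (C ∪ D)ᶜ := by
      ext b
      simp only [mem_compl, mem_union]
      by_cases hbC : b ∈ C
      · have : b ∉ D := fun hbD => (Finset.disjoint_left.1 hCD hbC hbD)
        simp [hbC, this]
      · by_cases hbD : b ∈ D
        · simp [hbC, hbD]
        · simp [hbC, hbD]
    have d1 : Disjoint D (C ∪ D)ᶜ := by
      rw [Finset.disjoint_left]
      intro b hbD hb
      simp only [mem_compl, mem_union] at hb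
      exact hb (Or.inr hbD)
    rw [e2, sum_union d1]
    have s1 : ∑ b ∈ D, (if b ∈ D then d b else f b) = ∑ b ∈ D, d b :=
      sum_congr rfl fun b hb => by simp [hb]
    have s2 : ∑ b ∈ (C ∪ D)ᶜ, (if b ∈ D then d b else f b) = ∑ b ∈ (C ∪ D)ᶜ, f b :=
      sum_congr rfl fun b hb => by
        have : b ∉ D := fun hD => Finset.disjoint_left.1 d1 hD hb
        simp [this]
    rw [s1, s2, hd2]
    abel

open Classical in
/-- number of outside vertices seeing an edge not in `H` -/
noncomputable def ex (c : V → V → G) (C D : Finset V) (H : AddSubgroup G) : ℕ :=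
  ((C ∪ D)ᶜ.filter (fun b => ¬ ∀ x ∈ S c C b, x ∈ H)).card

open Classical in
/-- covering statement used with `rootX` -/
theorem cover_choice (s : Finset V) (M : AddSubgroup G) (hLM : L ≤ M)
    (hsM : ∀ b ∈ s, ∀ x ∈ S c C b, x ∈ M) (hX : ∀ b ∈ s, ∃ x ∈ S c C b, x ∈ L)
    (hK : ∀ K : AddSubgroup G, L ≤ K → K < M →
      K.relIndex M ≤ (s.filter (fun b => ¬ ∀ x ∈ S c C b, x ∈ K)).card + 1) :
    ∀ y ∈ M, ∃ f : V → G, (∀ b ∈ s, f b ∈ S c C b) ∧ y - ∑ b ∈ s, f b ∈ L := by
  intro y hy
  have hc := cover s (S c C) L M hLM hsM hX (by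
    intro K hLK hKM
    have h1 := hK K hLK hKM
    have h2 : (s.filter (fun b => ¬ ∀ x ∈ S c C b, x ∈ K)) =
        (s.filter (fun i => ∃ x ∈ S c C i, x ∉ K)) := by
      apply filter_congr
      intro b _
      push Not
      rfl
    rwa [h2] at h1)
  have hy' : y ∈ fs L + ∑ b ∈ s, S c C b := by rw [hc]; simpa using hy
  rw [mem_add] at hy'
  obtain ⟨l, hl, z, hz, hlz⟩ := hy'
  rw [mem_sum_iff] at hz
  obtain ⟨f, hf, rfl⟩ := hz
  refine ⟨f, hf, ?_⟩
  rw [← hlz, add_sub_cancel_right]
  simpa using hl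

theorem two_le_relIndex {K M : AddSubgroup G} (h : K < M) : 2 ≤ K.relIndex M := by
  have h1 : K.relIndex M ≠ 0 := by
    rw [AddSubgroup.relIndex]; exact AddSubgroup.index_ne_zero_of_finite
  have h2 : K.relIndex M ≠ 1 := by
    intro h3
    rw [AddSubgroup.relIndex_eq_one] at h3
    exact absurd (le_antisymm h.le h3) h.ne
  omega

theorem index_pos' (K : AddSubgroup G) : 1 ≤ K.index :=
  Nat.pos_of_ne_zero AddSubgroup.index_ne_zero_of_finite

theorem index_mul (K M : AddSubgroup G) (h : K ≤ M) : K.index = K.relIndex M * M.index :=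
  (AddSubgroup.relIndex_mul_index h).symm

open Classical in
/-- (Z+) when every vertex outside `C ∪ D` has an `L`-edge to `C`. -/
theorem zplus_base (h : NZ c) (hC : C.Nonempty) (hCD : Disjoint C D)
    (hA : ∀ d ∈ D, A d ⊆ S c C d) (hAL : fs L ⊆ ∑ d ∈ D, A d)
    (hX : ∀ b ∉ C ∪ D, ∃ x ∈ S c C b, x ∈ L) : ((C ∪ D)ᶜ).card + 2 ≤ L.index := by
  by_contra hcon
  push Not at hcon
  set X := (C ∪ D)ᶜ with hXdef
  -- splitting of X along M
  have split : ∀ M : AddSubgroup G, (X.filter (fun b => ∀ x ∈ S c C b, x ∈ M)).card +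
      ex c C D M = X.card := by
    intro M
    rw [ex, ← hXdef]
    exact Finset.card_filter_add_card_filter_not _
  -- counting for K ≤ M and the root r
  have count : ∀ (K M : AddSubgroup G), K ≤ M → ∀ r ∈ X,
      ex c C D K ≤ (((X.erase r).filter (fun b => ∀ x ∈ S c C b, x ∈ M)).filter
        (fun b => ¬ ∀ x ∈ S c C b, x ∈ K)).card + ex c C D M + 1 := by
    intro K M hKM r hr
    rw [ex, ex, ← hXdef]
    have hsub : (X.filter (fun b => ¬ ∀ x ∈ S c C b, x ∈ K)) ⊆
        (insert r (((X.erase r).filter (fun b => ∀ x ∈ S c C b, x ∈ M)).filter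
        (fun b => ¬ ∀ x ∈ S c C b, x ∈ K))) ∪
          (X.filter (fun b => ¬ ∀ x ∈ S c C b, x ∈ M)) := by
      intro b hb
      rw [mem_filter] at hb
      rw [mem_union, mem_insert, mem_filter, mem_filter, mem_erase, mem_filter]
      by_cases hbr : b = r
      · exact Or.inl (Or.inl hbr)
      · by_cases hbM : ∀ x ∈ S c C b, x ∈ M
        · exact Or.inl (Or.inr ⟨⟨⟨hbr, hb.1⟩, hbM⟩, hb.2⟩)
        · exact Or.inr ⟨hb.1, hbM⟩
    have h1 := card_le_card hsub
    have h2 := card_union_le (insert r (((X.erase r).filter (fun b => ∀ x ∈ S c C b, x ∈ M)).filter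
        (fun b => ¬ ∀ x ∈ S c C b, x ∈ K))) (X.filter (fun b => ¬ ∀ x ∈ S c C b, x ∈ M))
    have h3 := card_insert_le r (((X.erase r).filter (fun b => ∀ x ∈ S c C b, x ∈ M)).filter
        (fun b => ¬ ∀ x ∈ S c C b, x ∈ K))
    omega
  -- using rootX
  have useX : ∀ M : AddSubgroup G, L ≤ M → ∀ r ∈ X, (∀ x ∈ S c C r, x ∈ M) →
      (∀ K : AddSubgroup G, L ≤ K → K < M → K.relIndex M + ex c C D M ≤ ex c C D K) → False := by
    intro M hLM r hr hrM hKM
    refine rootX h hCD hA hAL hX M hLM (mem_compl.1 hr) hrM ?_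
    apply cover_choice _ M hLM
    · intro b hb; exact (mem_filter.1 hb).2
    · intro b hb
      have := (mem_filter.1 hb).1
      rw [mem_erase, mem_compl] at this
      exact hX b this.2
    · intro K hLK hKltM
      have h1 := hKM K hLK hKltM
      have h2 := count K M hKltM.le r hr
      rw [← hXdef]
      omega
  -- existence of a minimal M
  have exmin : ∀ P : AddSubgroup G → Prop, (∃ M, P M) → ∃ M, P M ∧ ∀ K, K < M → ¬ P K := by
    intro P hP
    obtain ⟨M0, hM0⟩ := hP
    have hfin : (Set.univ : Set (AddSubgroup G)).Finite := Set.toFinite _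
    have : ({M : AddSubgroup G | P M}).Finite := Set.toFinite _
    obtain ⟨M, hM⟩ := this.exists_minimal ⟨M0, hM0⟩
    refine ⟨M, hM.prop, ?_⟩
    intro K hKM hK
    exact absurd (hM.le_of_le hK hKM.le) (not_le_of_gt hKM)
  by_cases hLP : ex c C D L + 1 ≤ L.index
  · -- case B
    by_cases hB1 : ∃ r ∈ X, ∀ x ∈ S c C r, x ∈ L
    · obtain ⟨r, hr, hrL⟩ := hB1
      exact useX L le_rfl r hr hrL (fun K hLK hKL => absurd hLK (not_le_of_gt hKL))
    · push Not at hB1
      have hexL : ex c C D L = X.card := by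
        rw [ex, ← hXdef, Finset.filter_true_of_mem]
        intro b hb hall
        obtain ⟨x, hx, hxL⟩ := hB1 b hb
        exact hxL (hall x hx)
      by_cases hLtop : L = ⊤
      · subst hLtop
        apply rootC h hC hCD hA hAL
        intro y
        refine ⟨fun b => if hb : b ∈ (C ∪ D)ᶜ then (hX b (mem_compl.1 hb)).choose else 0, ?_, ?_⟩
        · intro b hb
          simp only [hb, dif_pos]
          exact (hX b (mem_compl.1 hb)).choose_spec.1
        · trivial
      · obtain ⟨M, ⟨hLM, hM2⟩, hMmin⟩ := exmin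
          (fun M => L < M ∧ ex c C D M + 1 ≤ M.index) ⟨⊤, by
            refine ⟨lt_top_iff_ne_top.2 hLtop, ?_⟩
            rw [AddSubgroup.index_top]
            have : ex c C D (⊤ : AddSubgroup G) = 0 := by
              rw [ex, Finset.card_eq_zero, Finset.filter_eq_empty_iff]
              intro b _ hb
              exact hb (fun x _ => trivial)
            omega⟩
        have hKlow : ∀ K : AddSubgroup G, L < K → K < M → K.index ≤ ex c C D K := by
          intro K hLK hKM
          have := hMmin K hKM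
          by_contra hc
          exact this ⟨hLK, by omega⟩
        have hLidx := index_mul L M hLM.le
        have hrel := two_le_relIndex hLM
        by_cases hMtop : M = ⊤
        · subst hMtop
          apply rootC h hC hCD hA hAL
          have hcc := cover_choice (c := c) (C := C) X (⊤ : AddSubgroup G) hLM.le
            (fun b _ x _ => trivial) (fun b hb => hX b (mem_compl.1 hb)) (by
              intro K hLK hKM
              rw [AddSubgroup.relIndex_top_right]
              have e1 : (X.filter (fun b => ¬ ∀ x ∈ S c C b, x ∈ K)).card = ex c C D K := rfl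
              rw [e1]
              rcases eq_or_lt_of_le hLK with rfl | hlt
              · omega
              · have := hKlow K hlt hKM
                omega)
          intro y
          exact hcc y trivial
        · have hM2' : 2 ≤ M.index := by
            have h1 := index_pos' M
            have h2 : M.index ≠ 1 := fun h => hMtop (AddSubgroup.index_eq_one.1 h)
            omega
          have hs := split M
          -- |X_M| ≥ 1
          have hge : M.index * 2 ≤ L.index := by
            rw [hLidx, mul_comm]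
            exact Nat.mul_le_mul_right _ hrel
          have hpos : 0 < (X.filter (fun b => ∀ x ∈ S c C b, x ∈ M)).card := by omega
          obtain ⟨r, hr⟩ := Finset.card_pos.1 hpos
          rw [mem_filter] at hr
          refine useX M hLM.le r hr.1 hr.2 ?_
          intro K hLK hKM
          rcases eq_or_lt_of_le hLK with rfl | hlt
          · -- K = L
            have : L.relIndex M + M.index ≤ L.relIndex M * M.index := by
              obtain ⟨p, hp⟩ := Nat.exists_eq_add_of_le hrel
              obtain ⟨q, hq⟩ := Nat.exists_eq_add_of_le hM2'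
              rw [hp, hq]
              nlinarith [Nat.zero_le (p * q)]
            omega
          · have h1 := hKlow K hlt hKM
            have h2 := index_mul K M hKM.le
            have h3 := two_le_relIndex hKM
            have : K.relIndex M + M.index ≤ K.relIndex M * M.index + 1 := by
              obtain ⟨p, hp⟩ := Nat.exists_eq_add_of_le h3
              obtain ⟨q, hq⟩ := Nat.exists_eq_add_of_le hM2'
              rw [hp, hq]
              nlinarith [Nat.zero_le (p * q)]
            omega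
  · -- case A
    obtain ⟨M, ⟨hLM, hM2⟩, hMmin⟩ := exmin
      (fun M => L ≤ M ∧ ex c C D M + 1 ≤ M.index) ⟨⊤, by
        refine ⟨le_top, ?_⟩
        rw [AddSubgroup.index_top]
        have : ex c C D (⊤ : AddSubgroup G) = 0 := by
          rw [ex, Finset.card_eq_zero, Finset.filter_eq_empty_iff]
          intro b _ hb
          exact hb (fun x _ => trivial)
        omega⟩
    have hLM' : L < M := lt_of_le_of_ne hLM (by rintro rfl; exact hLP hM2)
    have hKlow : ∀ K : AddSubgroup G, L ≤ K → K < M → K.index ≤ ex c C D K := by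
      intro K hLK hKM
      have := hMmin K hKM
      by_contra hc
      exact this ⟨hLK, by omega⟩
    have hLidx := index_mul L M hLM
    have hrel := two_le_relIndex hLM'
    have hMpos := index_pos' M
    have hge : M.index * 2 ≤ L.index := by
      rw [hLidx, mul_comm]
      exact Nat.mul_le_mul_right _ hrel
    have hs := split M
    have hpos : 0 < (X.filter (fun b => ∀ x ∈ S c C b, x ∈ M)).card := by omega
    obtain ⟨r, hr⟩ := Finset.card_pos.1 hpos
    rw [mem_filter] at hr
    refine useX M hLM r hr.1 hr.2 ?_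
    intro K hLK hKM
    have h1 := hKlow K hLK hKM
    have h2 := index_mul K M hKM.le
    have h3 := two_le_relIndex hKM
    have : K.relIndex M + M.index ≤ K.relIndex M * M.index + 1 := by
      obtain ⟨p, hp⟩ := Nat.exists_eq_add_of_le h3
      obtain ⟨q, hq⟩ := Nat.exists_eq_add_of_le hMpos
      rw [hp, hq]
      nlinarith [Nat.zero_le (p * q)]
    omega

open Classical in
/-- **(Z+), class 0.** -/
theorem zplus0 (h : NZ c) (hC : C.Nonempty) (hCD : Disjoint C D)
    (hA : ∀ d ∈ D, A d ⊆ S c C d) (hAL : fs L ⊆ ∑ d ∈ D, A d) :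
    (((C ∪ D)ᶜ).filter (fun b => ∃ x ∈ S c C b, x ∈ L)).card + 2 ≤ L.index := by
  -- induction on the number of vertices outside C
  obtain ⟨n, hn⟩ : ∃ n, n = (Cᶜ).card := ⟨_, rfl⟩
  induction n using Nat.strong_induction_on generalizing C with
  | _ n ih =>
  by_cases hall : ∀ b ∉ C ∪ D, ∃ x ∈ S c C b, x ∈ L
  · refine le_trans ?_ (zplus_base h hC hCD hA hAL hall)
    apply Nat.add_le_add_right
    exact card_le_card (filter_subset _ _)
  · push Not at hall
    obtain ⟨b, hb, hbL⟩ := hall
    rw [mem_union, not_or] at hb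
    have hlt : ((insert b C)ᶜ).card < n := by
      rw [hn]
      apply card_lt_card
      rw [Finset.ssubset_iff_of_subset (compl_subset_compl.2 (subset_insert _ _))]
      exact ⟨b, mem_compl.2 hb.1, by simp⟩
    have h1 := ih _ hlt (C := insert b C) (insert_nonempty _ _)
      (by rw [disjoint_insert_left]; exact ⟨hb.2, hCD⟩)
      (fun d hd => (hA d hd).trans (S_mono (subset_insert _ _) d)) rfl
    refine le_trans ?_ h1
    apply Nat.add_le_add_right
    apply card_le_card
    intro x hx
    rw [mem_filter, mem_compl, mem_union, not_or] at hx ⊢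
    obtain ⟨⟨hxC, hxD⟩, y, hy, hyL⟩ := hx
    refine ⟨⟨?_, hxD⟩, y, S_mono (subset_insert _ _) x hy, hyL⟩
    rw [mem_insert, not_or]
    refine ⟨?_, hxC⟩
    rintro rfl
    exact hbL y hy hyL

open Classical in
/-- **(Z+).** If the sums of the sets `A d ⊆ S_d(C)` (`d ∈ D`) cover a coset `|D| a + L`, then at
most `[G:L] - 2` vertices outside `C ∪ D` have an edge of class `a + L` to `C`. -/
theorem zplus (h : NZ c) (hV : Fintype.card V = Fintype.card G + 1) (hC : C.Nonempty)
    (hCD : Disjoint C D) (hA : ∀ d ∈ D, A d ⊆ S c C d) (a : G)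
    (hAL : ∀ y ∈ L, D.card • a + y ∈ ∑ d ∈ D, A d) :
    (((C ∪ D)ᶜ).filter (fun b => ∃ x ∈ S c C b, x - a ∈ L)).card + 2 ≤ L.index := by
  have h1 := zplus0 (h.shift hV a) (C := C) (D := D) (L := L)
    (A := fun d => (A d).image (fun x => x - a)) hC hCD
    (fun d hd => by
      rw [S_shift]; exact image_subset_image (hA d hd))
    (by
      intro y hy
      rw [mem_fs] at hy
      have h2 := hAL y hy
      rw [mem_sum_iff] at h2 ⊢
      obtain ⟨f, hf, hfy⟩ := h2
      refine ⟨fun d => f d - a, fun d hd => mem_image_of_mem _ (hf d hd), ?_⟩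
      rw [sum_sub_distrib, sum_const, hfy]
      abel)
  refine le_trans ?_ h1
  apply Nat.add_le_add_right
  apply card_le_card
  intro b hb
  rw [mem_filter] at hb ⊢
  obtain ⟨hb1, x, hx, hxL⟩ := hb
  refine ⟨hb1, x - a, ?_, hxL⟩
  rw [S_shift]
  exact mem_image_of_mem _ hx

end ZPlus

end Pool.Agent.Lib.MP_12e153_co.Comp
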