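import Pool.Agent.Lib.MP_12e153_co.Mg.G004
import Pool.Agent.Lib.MP_12e153_co.Mg.G006

/-!
# No based gadgets
-/

set_option autoImplicit false
set_option linter.unusedSectionVars false

open Finset
open scoped Pointwise

namespace Pool.Agent.Lib.MP_12e153_co.Comp

open Pool.Agent.Kneser Pool.Agent.Lib.MP_12e153_co

variable {V : Type*} [Fintype V] [DecidableEq V]
variable {G : Type*} [AddCommGroup G] [Fintype G] [DecidableEq G]
variable {c : V → V → G} {K : AddSubgroup G} {x : V}

theorem Gadget.shift {L : AddSubgroup G} {P Q : Finset V} {q : V} {A : V → Finset G}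
    (hG : Gadget c L P Q q A) (a : G) :
    Gadget (fun u v => c u v - a) L P Q q (fun t => (A t).image (fun y => y - a)) := by
  refine ⟨hG.disj, hG.mem, ?_, ?_, ?_, ?_, ?_⟩
  · intro b hb
    rw [S_shift]
    exact image_subset_image (hG.sub b hb)
  · intro b hb
    exact mem_image_of_mem _ (hG.base b hb)
  · intro b hb y hy
    rw [mem_image] at hy
    obtain ⟨z, hz, rfl⟩ := hy
    have := hG.cls b hb z hz
    have e : z - a - (c b q - a) = z - c b q := by abel
    rw [e]; exact this
  · intro y hy
    have h1 := hG.gen y hy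
    rw [mem_sum_iff] at h1 ⊢
    obtain ⟨f, hf, hfy⟩ := h1
    refine ⟨fun t => f t - a, fun t ht => mem_image_of_mem _ (hf t ht), ?_⟩
    rw [sum_sub_distrib, sum_sub_distrib, hfy]
    abel
  · refine le_trans (le_of_eq ?_) hG.flex
    congr 1
    apply sum_congr rfl
    intro t _
    rw [card_image_of_injective _ sub_left_injective]

theorem HasGadget.unshift {L : AddSubgroup G} {q : V} (a : G)
    (hG : HasGadget (fun u v => c u v - a) L q) : HasGadget c L q := by
  obtain ⟨P, Q, A, hG⟩ := hG
  have h1 := hG.shift (-a)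
  have e : (fun u v => (fun u v => c u v - a) u v - -a) = c := by
    funext u v
    simp
  rw [e] at h1
  exact ⟨_, _, _, h1⟩

theorem Str.toKS (s : Str c K x) : KS c K s.P s.Q x s.A := ⟨s.gad, s.two, s.small⟩

theorem Str.M_eq (s : Str c K x) : s.M = MM c K s.P s.Q x := by
  ext u
  rw [Str.mem_M, mem_MM, and_assoc]
  constructor
  · rintro ⟨h1, h2, h3⟩
    exact ⟨h1, h2, fun v hv hvu => h3 v hvu hv⟩
  · rintro ⟨h1, h2, h3⟩
    exact ⟨h1, h2, fun v hvu hv => h3 v hv hvu⟩

theorem MM_shift (P Q : Finset V) (a : G) :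
    MM (fun u v => c u v - a) K P Q x = MM c K P Q x := by
  ext u
  rw [mem_MM, mem_MM]
  have e : ∀ v, c u v - a - (c u x - a) = c u v - c u x := fun v => by abel
  simp only [e]

/-- **NG.** Without zero-sum star trees there are no based gadgets. -/
theorem NZ.free (h : NZ c) (hs : ∀ u v, c u v = c v u)
    (hV : Fintype.card V = Fintype.card G + 1) (x : V) : Free c x := by
  intro K0 hK0 hG0
  obtain ⟨K, hK, hmax⟩ := exists_maximal_gadget (c := c) x
  have hKbot : ⊥ < K := by
    rw [bot_lt_iff_ne_bot]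
    rintro rfl
    exact hmax K0 hK0 hG0
  obtain ⟨s0⟩ := exists_str hK
  have hS2 : ∀ s : Str c K x, ((s.Pᶜ \ s.Q) \ s.M).card + 4 ≤ 2 * K.index := by
    intro s
    have h1 := s.toKS.card_N h hs hV hmax hKbot
    have e : s.Pᶜ \ s.Q = (s.P ∪ s.Q)ᶜ := by
      ext v
      simp
    rw [e, s.M_eq]
    exact h1
  have hk : 2 ≤ K.index := s0.toKS.index_ge h hmax
  have hh : 2 ≤ (fs K).card := two_le_fs_ne hKbot.ne'
  obtain ⟨s, a, hMe, hSG⟩ := exists_exact h hs hV hk hh hS2 s0
  have hA := s.toKS
  refine lemmaX (c := fun u v => c u v - a) (h.shift hV a) (fun u v => by rw [hs u v]) hV hKbot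
    (x := x) (fun K' hK' hG' => hmax K' hK' (HasGadget.unshift a hG')) (P := s.P) (Q := s.Q)
    (A := fun t => (s.A t).image (fun y => y - a)) ⟨hA.toGadget.shift a, ?_, ?_⟩ ?_ ?_
  · intro t ht
    rw [card_image_of_injective _ sub_left_injective]
    exact hA.two t ht
  · refine hA.small.trans (le_of_eq ?_)
    congr 1
    apply sum_congr rfl
    intro t _
    rw [card_image_of_injective _ sub_left_injective]
  · intro J hJ
    have h1 := hSG J hJ
    have h2 : Tr (∑ t ∈ J, s.A t) (∑ t ∈ J, (s.A t).image (fun y => y - a)) := by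
      refine ⟨-(J.card • a), fun y hy => ?_⟩
      rw [mem_sum_iff] at hy ⊢
      obtain ⟨f, hf, rfl⟩ := hy
      refine ⟨fun t => f t - a, fun t ht => mem_image_of_mem _ (hf t ht), ?_⟩
      rw [sum_sub_distrib, sum_const]
      abel
    have h3 := h2.card_le
    have h4 : ∑ t ∈ J, (((s.A t).image (fun y => y - a)).card - 1) =
        ∑ t ∈ J, ((s.A t).card - 1) := by
      apply sum_congr rfl
      intro t _
      rw [card_image_of_injective _ sub_left_injective]
    change ∑ t ∈ J, (((s.A t).image (fun y => y - a)).card - 1) + 1 ≤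
      (∑ t ∈ J, (s.A t).image (fun y => y - a)).card
    rw [h4]
    omega
  · intro u hu v hvP hvu
    rw [MM_shift, ← s.M_eq] at hu
    have := hMe u hu v hvu hvP
    rw [mem_singleton] at this
    change c u v - a = 0
    rw [this, sub_self]

end Pool.Agent.Lib.MP_12e153_co.Comp
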